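import Pool.Agent.J4.H39.WR.Main
import Pool.Agent.J4.H39.MH.Sum

/-! # Complete exponential sums with several rational functions -/

set_option autoImplicit false

namespace Pool.Agent.J4.H39.WR

open Finset Polynomial
open Pool.Agent.Helper170.Weyl (e e_add norm_e)
open Pool.Agent.N286.DE (e_std e_val psi_sum cast_ne_zero)
open Pool.Agent.J4.H39.MH (e_nat sum_range_zmod)

/-- the value of the rational function with polynomial part `P` and the residue `H b` at the
simple pole `b ∈ B` -/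
def val (p : ℕ) (P : (ZMod p)[X]) (B : Finset (ZMod p)) (H : ZMod p → ZMod p) (x : ZMod p) :
    ZMod p :=
  P.eval x + ∑ b ∈ B, H b * (x - b)⁻¹

variable {p : ℕ} [Fact p.Prime]

variable {k : ℕ} (P : Fin k → (ZMod p)[X]) (B : Finset (ZMod p)) (H : Fin k → ZMod p → ZMod p)

/-- the complete sums -/
theorem sum_zmod (d : ℕ) (hd1 : 1 ≤ d) (hdp : d < p) (hP : ∀ i, (P i).natDegree ≤ d)
    (hB : B.card ≤ d) (c s : ZMod p) (h : Fin k → ZMod p)
    (hind : (∃ b ∈ B, ∑ i, h i * H i b ≠ 0) ∨ 2 ≤ (∑ i, C (h i) * P i).natDegree) :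
    ‖∑ y : ZMod p, ZMod.stdAddChar (N := p) (c * y + ∑ i, h i * val p (P i) B (H i) (s + y))‖ ≤
      4 * d * Real.sqrt p := by
  classical
  have hpp : p.Prime := Fact.out
  set ψ := ZMod.stdAddChar (N := p) with hψ
  have hψp : ψ.IsPrimitive := ZMod.isPrimitive_stdAddChar p
  have hs1 : 1 ≤ Real.sqrt p := by
    rw [Real.one_le_sqrt]
    exact_mod_cast hpp.one_le
  have hd1' : (1 : ℝ) ≤ d := by exact_mod_cast hd1
  have hBd : (B.card : ℝ) ≤ d := by exact_mod_cast hB
  set G : (ZMod p)[X] := (∑ i, C (h i) * P i) + C c * X with hG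
  set R : ZMod p → ZMod p := fun b => ∑ i, h i * H i b with hR
  have hGd : G.natDegree ≤ d := by
    refine (natDegree_add_le _ _).trans (max_le ?_ ?_)
    · refine natDegree_sum_le_of_forall_le _ _ fun i _ => ?_
      exact (natDegree_C_mul_le _ _).trans (hP i)
    · exact (natDegree_C_mul_le _ _).trans (natDegree_X_le.trans hd1)
  have h1 : ∑ y : ZMod p, ψ (c * y + ∑ i, h i * val p (P i) B (H i) (s + y)) =
      ψ (-(c * s)) * ∑ y : ZMod p, ψ (G.eval y + ∑ b ∈ B, R b * (y - b)⁻¹) := by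
    rw [mul_sum, ← Equiv.sum_comp (Equiv.subRight s)]
    refine sum_congr rfl fun y _ => ?_
    rw [← AddChar.map_add_eq_mul]
    congr 1
    show c * (y - s) + ∑ i, h i * val p (P i) B (H i) (s + (y - s)) = _
    rw [add_sub_cancel]
    have h2 : ∑ i, h i * val p (P i) B (H i) y =
        ∑ i, h i * (P i).eval y + ∑ b ∈ B, R b * (y - b)⁻¹ := by
      unfold val
      simp only [mul_add, sum_add_distrib]
      congr 1
      simp only [hR, mul_sum, sum_mul]
      rw [sum_comm]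
      refine sum_congr rfl fun b _ => sum_congr rfl fun i _ => ?_
      ring
    rw [h2, hG, eval_add, eval_finsetSum, eval_mul, eval_C, eval_X]
    simp only [eval_mul, eval_C]
    ring
  rw [h1, norm_mul, AddChar.norm_apply, one_mul]
  by_cases hex : ∃ b ∈ B, R b ≠ 0
  · obtain ⟨b₀, hb₀, hr⟩ := hex
    have h2 := weil_le p G B R hb₀ hr hψp
    have h3 : ∑ y : ZMod p, ψ (G.eval y + ∑ b ∈ B, R b * (y - b)⁻¹) =
        ∑ y : ZMod p, (if y ∈ B then (0 : ℂ) else ψ (G.eval y + ∑ b ∈ B, R b * (y - b)⁻¹)) +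
        ∑ y ∈ B, ψ (G.eval y + ∑ b ∈ B, R b * (y - b)⁻¹) := by
      have h4 : ∑ y ∈ B, ψ (G.eval y + ∑ b ∈ B, R b * (y - b)⁻¹) =
          ∑ y : ZMod p, (if y ∈ B then ψ (G.eval y + ∑ b ∈ B, R b * (y - b)⁻¹) else 0) := by
        rw [← sum_filter]
        refine sum_congr ?_ fun _ _ => rfl
        ext y
        simp
      rw [h4, ← sum_add_distrib]
      refine sum_congr rfl fun y _ => ?_
      split_ifs <;> simp
    have h5 : ‖∑ y ∈ B, ψ (G.eval y + ∑ b ∈ B, R b * (y - b)⁻¹)‖ ≤ B.card := by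
      refine (norm_sum_le _ _).trans ?_
      rw [sum_congr rfl (fun y _ => AddChar.norm_apply ψ _), sum_const, nsmul_eq_mul, mul_one]
    have h6 : ((2 * B.card + G.natDegree - 1 : ℕ) : ℝ) ≤ 3 * d := by
      have : 2 * B.card + G.natDegree - 1 ≤ 3 * d := by omega
      exact_mod_cast this
    rw [h3]
    refine (norm_add_le _ _).trans ?_
    have h7 : ((2 * B.card + G.natDegree - 1 : ℕ) : ℝ) * Real.sqrt p ≤ 3 * d * Real.sqrt p :=
      mul_le_mul_of_nonneg_right h6 (by linarith)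
    have h8 : (d : ℝ) ≤ d * Real.sqrt p := le_mul_of_one_le_right (by linarith) hs1
    linarith
  · have hex' : ∀ b ∈ B, R b = 0 := by
      intro b hb
      by_contra h0
      exact hex ⟨b, hb, h0⟩
    have hdeg : 2 ≤ (∑ i, C (h i) * P i).natDegree := by
      rcases hind with ⟨b, hb, h0⟩ | h0
      · exact absurd (hex' b hb) h0
      · exact h0
    have hGn : G.natDegree = (∑ i, C (h i) * P i).natDegree := by
      rw [hG, natDegree_add_eq_left_of_natDegree_lt]
      exact lt_of_le_of_lt ((natDegree_C_mul_le _ _).trans natDegree_X_le) (by omega)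
    have hnd : ¬ p ∣ G.natDegree := by
      intro h0
      have := Nat.le_of_dvd (by omega) h0
      omega
    have h2 := Pool.Agent.Y951.WP.weil_le p G hnd hψp
    have h3 : ∑ y : ZMod p, ψ (G.eval y + ∑ b ∈ B, R b * (y - b)⁻¹) =
        ∑ y : ZMod p, ψ (G.eval y) := by
      refine sum_congr rfl fun y _ => ?_
      rw [sum_eq_zero fun b hb => by rw [hex' b hb, zero_mul], add_zero]
    rw [h3]
    refine h2.trans (mul_le_mul_of_nonneg_right ?_ (by linarith))
    have h4 : ((G.natDegree - 1 : ℕ) : ℝ) ≤ d := by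
      have : G.natDegree - 1 ≤ d := by omega
      exact_mod_cast this
    linarith

/-- the sums of the criterion -/
theorem sum_le (d : ℕ) (hd1 : 1 ≤ d) (hdp : d < p) (hP : ∀ i, (P i).natDegree ≤ d)
    (hB : B.card ≤ d)
    (hind : ∀ h : Fin k → ZMod p, h ≠ 0 →
      (∃ b ∈ B, ∑ i, h i * H i b ≠ 0) ∨ 2 ≤ (∑ i, C (h i) * P i).natDegree)
    (s c : ℕ) (h : Fin k → ℕ) (hhp : ∀ i, h i < p) (hh : h ≠ 0) :
    ‖∑ x ∈ range p, e ((c : ℝ) * x / p) *
      ∏ i, e ((h i : ℝ) * (((val p (P i) B (H i) ((s + x : ℕ) : ZMod p)).val : ℕ) : ℝ) / p)‖ ≤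
      4 * d * Real.sqrt p := by
  have hh0 := cast_ne_zero (p := p) h hhp hh
  have h1 : ∀ x ∈ range p, e ((c : ℝ) * x / p) *
      ∏ i, e ((h i : ℝ) * (((val p (P i) B (H i) ((s + x : ℕ) : ZMod p)).val : ℕ) : ℝ) / p) =
      ZMod.stdAddChar (N := p) ((c : ZMod p) * (x : ZMod p) + ∑ i, (h i : ZMod p) *
        val p (P i) B (H i) ((s : ZMod p) + (x : ZMod p))) := by
    intro x _
    rw [AddChar.map_add_eq_mul, psi_sum, e_nat]
    congr 1
    refine prod_congr rfl fun i _ => ?_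
    rw [e_nat, ZMod.natCast_zmod_val, Nat.cast_add]
  rw [sum_congr rfl h1, sum_range_zmod (fun y : ZMod p => (ZMod.stdAddChar (N := p)
    ((c : ZMod p) * y + ∑ i, (h i : ZMod p) * val p (P i) B (H i) ((s : ZMod p) + y)) : ℂ))]
  exact sum_zmod P B H d hd1 hdp hP hB c s _ (hind _ hh0)

end Pool.Agent.J4.H39.WR
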