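import Pool.Agent.N286.DE.Main
import Pool.Agent.J4.H39.WR.Sum

set_option autoImplicit false

/-! # Record gaps at several rational functions modulo a prime -/

namespace Pool.Agent.J4.H39.WR

open Finset Filter Polynomial
open Pool.Agent.H256R2.SC (ff)
open Pool.Agent.N286.DE (main)

/-- the points in the box, outside the poles, with all coordinates far from primes -/
def Pts (p k : ℕ) (n : Fin k → ℕ → ℕ) (B : Finset (ZMod p)) (R z : ℝ) (a L : ℕ)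
    (c D : Fin k → ℕ) : Set ℕ :=
  {x : ℕ | a ≤ x ∧ x < a + L ∧ (x : ZMod p) ∉ B ∧ (∀ i, c i ≤ n i x ∧ n i x < c i + D i) ∧
    ∀ m : ℤ, (|(m : ℝ) - x| ≤ R ∨ ∃ i, |(m : ℝ) - (n i x : ℕ)| ≤ R) →
      ∃ q : ℕ, q.Prime ∧ (q : ℝ) ≤ z ∧ (q : ℤ) ∣ m ∧ (q : ℤ) < m}

/-- the theorem for rational functions -/
theorem final (k d : ℕ) (δ : ℝ) (hδ : 0 < δ) (hδ1 : δ ≤ 1) :
    ∃ κ : ℝ, 0 < κ ∧ ∃ p₀ : ℕ, ∀ p : ℕ, p.Prime → p₀ ≤ p →
    ∀ (P : Fin k → (ZMod p)[X]) (B : Finset (ZMod p)) (H : Fin k → ZMod p → ZMod p),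
    (∀ i, (P i).natDegree ≤ d) → B.card ≤ d →
    (∀ h : Fin k → ZMod p, h ≠ 0 →
      (∃ b ∈ B, ∑ i, h i * H i b ≠ 0) ∨ 2 ≤ (∑ i, C (h i) * P i).natDegree) →
    ∀ (a L : ℕ) (c D : Fin k → ℕ), L ≤ p → (∀ i, c i + D i ≤ p) →
    (p : ℝ) ^ ((k : ℝ) + 1 / 2 + δ) ≤ L * ∏ i, (D i : ℝ) →
    (L * ∏ i, (D i : ℝ)) * (p : ℝ) ^ (-((k : ℝ) + δ)) ≤
      ((Pts p k (fun i x => (val p (P i) B (H i) (x : ZMod p)).val) B (κ * ff p) ((p : ℝ) ^ δ)
        a L c D).ncard : ℝ) := by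
  classical
  obtain ⟨κ, hκ, hmain⟩ := main k 1 (δ / 2) (by positivity) (by linarith)
  obtain ⟨P₀, hP₀⟩ := eventually_atTop.mp (hmain.and
    ((tendsto_rpow_atTop (show (0 : ℝ) < δ / 2 by positivity)).eventually_ge_atTop
      (4 * (d + 1 : ℕ))))
  refine ⟨κ, hκ, max ⌈P₀⌉₊ (d + 2), ?_⟩
  intro p hp hp₀ P B H hP hB hind a L c D hLp hcD hLD
  have : Fact p.Prime := ⟨hp⟩
  have hp1 : (1 : ℝ) ≤ p := by exact_mod_cast hp.one_lt.le
  have hp0 : (0 : ℝ) < p := by linarith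
  have hdp : d + 1 < p := by
    have := (le_max_right _ _).trans hp₀
    omega
  obtain ⟨hm, h4d⟩ := hP₀ p ((Nat.le_ceil _).trans
    (by exact_mod_cast (le_max_left _ _).trans hp₀))
  have hmono : ∀ x y : ℝ, x ≤ y → (p : ℝ) ^ x ≤ (p : ℝ) ^ y := fun x y h =>
    Real.rpow_le_rpow_of_exponent_le hp1 h
  have hLp' : (L : ℝ) ≤ p := by exact_mod_cast hLp
  have hDp' : ∀ i, (D i : ℝ) ≤ p := by
    intro i
    have := hcD i
    exact_mod_cast (by omega : D i ≤ p)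
  have hexp : (p : ℝ) ^ ((k : ℝ) + 1 / 2 + δ) = (p : ℝ) ^ k * (p : ℝ) ^ (1 / 2 + δ) := by
    rw [add_assoc, Real.rpow_add hp0, Real.rpow_natCast]
  have hDprod : ∏ i, (D i : ℝ) ≤ (p : ℝ) ^ k := by
    calc ∏ i, (D i : ℝ) ≤ ∏ _i : Fin k, (p : ℝ) :=
          prod_le_prod (fun i _ => Nat.cast_nonneg _) fun i _ => hDp' i
      _ = _ := by rw [prod_const, card_univ, Fintype.card_fin]
  have hL0 : (p : ℝ) ^ (1 / 2 + δ) ≤ L := by
    have h1 : (L : ℝ) * ∏ i, (D i : ℝ) ≤ L * (p : ℝ) ^ k :=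
      mul_le_mul_of_nonneg_left hDprod (Nat.cast_nonneg _)
    have h2 : (p : ℝ) ^ k * (p : ℝ) ^ (1 / 2 + δ) ≤ (p : ℝ) ^ k * L := by
      rw [← hexp, mul_comm ((p : ℝ) ^ k) (L : ℝ)]
      exact hLD.trans h1
    exact le_of_mul_le_mul_left h2 (by positivity)
  have hD0 : ∀ i, (p : ℝ) ^ (1 / 2 + δ) ≤ D i := by
    intro i
    have h0 : ∏ j ∈ univ.erase i, (D j : ℝ) ≤ (p : ℝ) ^ (k - 1) := by
      calc ∏ j ∈ univ.erase i, (D j : ℝ) ≤ ∏ _j ∈ univ.erase i, (p : ℝ) :=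
            prod_le_prod (fun i _ => Nat.cast_nonneg _) fun i _ => hDp' i
        _ = _ := by rw [prod_const, card_erase_of_mem (mem_univ _), card_univ, Fintype.card_fin]
    have hk1 : k - 1 + 1 = k := by
      have := i.pos
      omega
    have h1 : (L : ℝ) * ∏ j, (D j : ℝ) ≤ (p : ℝ) ^ k * D i := by
      rw [← mul_prod_erase univ (fun j => (D j : ℝ)) (mem_univ i)]
      have h2 : (0 : ℝ) ≤ ∏ j ∈ univ.erase i, (D j : ℝ) := prod_nonneg fun _ _ => Nat.cast_nonneg _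
      calc (L : ℝ) * ((D i : ℝ) * ∏ j ∈ univ.erase i, (D j : ℝ))
          ≤ p * ((D i : ℝ) * (p : ℝ) ^ (k - 1)) := by
            refine mul_le_mul hLp' ?_ (by positivity) hp0.le
            exact mul_le_mul_of_nonneg_left h0 (Nat.cast_nonneg _)
        _ = (p : ℝ) ^ (k - 1 + 1) * D i := by rw [pow_succ]; ring
        _ = _ := by rw [hk1]
    have h2 : (p : ℝ) ^ k * (p : ℝ) ^ (1 / 2 + δ) ≤ (p : ℝ) ^ k * D i := by
      rw [← hexp]
      exact hLD.trans h1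
    exact le_of_mul_le_mul_left h2 (by positivity)
  have hsq : Real.sqrt p = (p : ℝ) ^ (1 / 2 : ℝ) := Real.sqrt_eq_rpow _
  have hsq1 : 1 ≤ Real.sqrt p := by rw [Real.one_le_sqrt]; exact hp1
  have hM1 : (1 : ℝ) ≤ 4 * (d + 1 : ℕ) * Real.sqrt p := by
    have h1 : (1 : ℝ) ≤ (d + 1 : ℕ) := by exact_mod_cast (by omega : 1 ≤ d + 1)
    nlinarith
  -- the criterion
  have hcrit := hm p rfl p hp.one_le (by rw [pow_one])
    (fun x i => (val p (P i) B (H i) (x : ZMod p)).val) (fun x i => ZMod.val_lt _)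
    (4 * (d + 1 : ℕ) * Real.sqrt p) hM1
    (fun s t _ h hhp hh => sum_le P B H (d + 1) (by omega) hdp (fun i => (hP i).trans (by omega))
      (hB.trans (by omega)) hind s t h hhp hh) a L c D
    hLp hcD ((hmono _ _ (by linarith)).trans hL0)
    (fun i => (hmono _ _ (by linarith)).trans (hD0 i)) (by
      refine le_trans ?_ hLD
      have h5 : (p : ℝ) ^ ((k : ℝ) + 1 / 2 + δ) =
          (p : ℝ) ^ (1 / 2 : ℝ) * ((p : ℝ) ^ (δ / 2) * (p : ℝ) ^ ((k : ℝ) + δ / 2)) := by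
        rw [← Real.rpow_add hp0, ← Real.rpow_add hp0]; congr 1; ring
      have h6 : (p : ℝ) ^ ((k : ℝ) + 3 * (δ / 2) / 4) ≤ (p : ℝ) ^ ((k : ℝ) + δ / 2) :=
        hmono _ _ (by linarith)
      have h7 : 0 < (p : ℝ) ^ ((k : ℝ) + δ / 2) := by positivity
      rw [h5, ← hsq]
      calc 4 * (d + 1 : ℕ) * Real.sqrt p * (p : ℝ) ^ ((k : ℝ) + 3 * (δ / 2) / 4)
          ≤ 4 * (d + 1 : ℕ) * Real.sqrt p * (p : ℝ) ^ ((k : ℝ) + δ / 2) :=
            mul_le_mul_of_nonneg_left h6 (by linarith)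
        _ = Real.sqrt p * (4 * (d + 1 : ℕ) * (p : ℝ) ^ ((k : ℝ) + δ / 2)) := by ring
        _ ≤ _ := by
            refine mul_le_mul_of_nonneg_left ?_ (by linarith)
            exact mul_le_mul_of_nonneg_right h4d h7.le)
  -- the poles
  set S : Set ℕ := {x : ℕ | a ≤ x ∧ x < a + L ∧
    (∀ i, c i ≤ (val p (P i) B (H i) (x : ZMod p)).val ∧
      (val p (P i) B (H i) (x : ZMod p)).val < c i + D i) ∧
        ∀ m : ℤ, (|(m : ℝ) - x| ≤ κ * ff p ∨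
          ∃ i, |(m : ℝ) - ((val p (P i) B (H i) (x : ZMod p)).val : ℕ)| ≤ κ * ff p) →
          ∃ q : ℕ, q.Prime ∧ (q : ℝ) ≤ (p : ℝ) ^ (δ / 2) ∧ (q : ℤ) ∣ m ∧ (q : ℤ) < m}
    with hS
  have hcrit' : (L * ∏ i, (D i : ℝ)) * (p : ℝ) ^ (-((k : ℝ) + δ / 2)) ≤ (S.ncard : ℝ) := hcrit
  set W := Pts p k (fun i x => (val p (P i) B (H i) (x : ZMod p)).val) B (κ * ff p) ((p : ℝ) ^ δ)
    a L c D with hW
  set Z : Finset ℕ := (Ico a (a + L)).filter fun x : ℕ => (x : ZMod p) ∈ B with hZ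
  have hfinI : (Set.Ico a (a + L)).Finite := Set.finite_Ico _ _
  have hWfin : W.Finite := hfinI.subset fun x hx => ⟨hx.1, hx.2.1⟩
  have hZ1 : Z.card ≤ d := by
    refine le_trans ?_ hB
    refine card_le_card_of_injOn (fun x : ℕ => (x : ZMod p)) (fun x hx => ?_) ?_
    · rw [hZ, coe_filter] at hx
      exact hx.2
    · intro x hx y hy hxy
      rw [hZ, coe_filter] at hx hy
      have hx1 := mem_Ico.1 hx.1
      have hy1 := mem_Ico.1 hy.1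
      have h6 := (ZMod.natCast_eq_natCast_iff' x y p).1 hxy
      obtain ⟨t, ht⟩ := Nat.modEq_iff_dvd.1 h6
      have hk0 : t = 0 := by
        have h8 : |(y : ℤ) - x| < p := by
          rw [abs_lt]
          constructor <;> omega
        by_contra hk0
        have h9 : (1 : ℤ) ≤ |t| := Int.one_le_abs hk0
        rw [ht, abs_mul, Nat.abs_cast] at h8
        have : (p : ℤ) * 1 ≤ p * |t| := mul_le_mul_of_nonneg_left h9 (by positivity)
        linarith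
      rw [hk0, mul_zero] at ht
      omega
  have hsub : S ⊆ W ∪ (Z : Set ℕ) := by
    rintro x ⟨h1, h2, h4, h5⟩
    by_cases h6 : (x : ZMod p) ∈ B
    · right
      rw [hZ, coe_filter]
      exact ⟨mem_Ico.2 ⟨h1, h2⟩, h6⟩
    · refine Or.inl ⟨h1, h2, h6, h4, fun m hm => ?_⟩
      obtain ⟨q, hq, hq1, hq2, hq3⟩ := h5 m hm
      exact ⟨q, hq, hq1.trans (hmono _ _ (by linarith)), hq2, hq3⟩
  have hcard : S.ncard ≤ W.ncard + d :=
    (Set.ncard_le_ncard hsub (hWfin.union (finite_toSet Z))).trans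
      ((Set.ncard_union_le W Z).trans (Nat.add_le_add_left (by rwa [Set.ncard_coe_finset]) _))
  have hcard' : (S.ncard : ℝ) ≤ W.ncard + d := by exact_mod_cast hcard
  -- the size of `S`
  have hS3 : (L * ∏ i, (D i : ℝ)) * (p : ℝ) ^ (-((k : ℝ) + δ / 2)) =
      (p : ℝ) ^ (δ / 2) * ((L * ∏ i, (D i : ℝ)) * (p : ℝ) ^ (-((k : ℝ) + δ))) := by
    have h4 : (p : ℝ) ^ (-((k : ℝ) + δ / 2)) = (p : ℝ) ^ (δ / 2) * (p : ℝ) ^ (-((k : ℝ) + δ)) := by
      rw [← Real.rpow_add hp0]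
      congr 1
      ring
    rw [h4]
    ring
  have hS4 : 1 ≤ (L * ∏ i, (D i : ℝ)) * (p : ℝ) ^ (-((k : ℝ) + δ)) := by
    have h4 : (p : ℝ) ^ ((k : ℝ) + 1 / 2 + δ) * (p : ℝ) ^ (-((k : ℝ) + δ)) ≤
        (L * ∏ i, (D i : ℝ)) * (p : ℝ) ^ (-((k : ℝ) + δ)) :=
      mul_le_mul_of_nonneg_right hLD (by positivity)
    refine le_trans ?_ h4
    rw [← Real.rpow_add hp0]
    exact Real.one_le_rpow hp1 (by linarith)
  rw [hS3] at hcrit'
  have h4d' : (4 : ℝ) * (d + 1) ≤ (p : ℝ) ^ (δ / 2) := by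
    have := h4d
    push_cast at this
    exact this
  have hd0 : (0 : ℝ) ≤ d := Nat.cast_nonneg _
  nlinarith

end Pool.Agent.J4.H39.WR
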