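import Pool.Agent.Y951.WP.Lam

/-!
# The `L`-function of `ψ (f x)` for a rational function `f` with simple rational poles
-/

set_option autoImplicit false
set_option linter.unusedSectionVars false

namespace Pool.Agent.J4.H39.WR

open Polynomial Finset IntermediateField
open Pool.Agent.H341R2.Sharp hiding T
open Pool.Agent.H498R2.Kl Pool.Agent.Y951.WP

section Congr

variable {F : Type*} [Field F]

/-- the sum of the values of `f` at the roots depends on the highest coefficients only -/
lemma T_congr (f : F[X]) {h h' : F[X]} (hh : h.Monic) (hh' : h'.Monic)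
    (hd : h'.natDegree = h.natDegree)
    (hE : (h' - h).natDegree + f.natDegree < h.natDegree) : T f h' = T f h := by
  set k := f.natDegree with hkdef
  set n := h.natDegree with hndef
  set E := h' - h with hEdef
  have hsum : h' = h + E := by rw [hEdef]; ring
  obtain ⟨G, hG⟩ : (PowerSeries.X : PowerSeries F) ^ (k + 1) ∣
      ((reflect n E : F[X]) : PowerSeries F) := by
    rw [PowerSeries.X_pow_dvd_iff]
    intro m hm
    rw [Polynomial.coeff_coe, coeff_reflect, revAt_le (by omega)]
    exact coeff_eq_zero_of_natDegree_lt (by omega)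
  have hrv : rv h' = rv h + PowerSeries.X ^ (k + 1) * G := by
    rw [← hG]
    unfold rv
    rw [← Polynomial.coe_add]
    congr 1
    unfold reverse
    rw [hd, ← hndef, ← reflect_add, ← hsum]
  have hdv : PowerSeries.derivative F (rv h') = PowerSeries.derivative F (rv h) +
      PowerSeries.X ^ k * (((k : PowerSeries F) + 1) * G +
        PowerSeries.X * PowerSeries.derivative F G) := by
    rw [hrv, map_add]
    congr 1
    rw [Derivation.leibniz, smul_eq_mul, smul_eq_mul, Derivation.leibniz_pow,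
      PowerSeries.derivative_X, smul_eq_mul, mul_one, nsmul_eq_mul]
    push_cast
    ring
  have hd2 : lg h' - lg h = PowerSeries.X ^ k *
      (((((k : PowerSeries F) + 1) * G + PowerSeries.X * PowerSeries.derivative F G) * rv h -
        PowerSeries.derivative F (rv h) * (PowerSeries.X * G)) *
        ((rv h)⁻¹ * (rv h')⁻¹)) := by
    have h1 := rv_inv hh
    have h2 := rv_inv hh'
    unfold lg
    rw [hdv]
    set U := ((k : PowerSeries F) + 1) * G + PowerSeries.X * PowerSeries.derivative F G with hU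
    have h6 : (PowerSeries.derivative F (rv h) + PowerSeries.X ^ k * U) *
        (rv h')⁻¹ - PowerSeries.derivative F (rv h) * (rv h)⁻¹ =
        ((PowerSeries.derivative F (rv h) + PowerSeries.X ^ k * U) * rv h -
          PowerSeries.derivative F (rv h) * rv h') * ((rv h)⁻¹ * (rv h')⁻¹) := by
      calc _ = (PowerSeries.derivative F (rv h) + PowerSeries.X ^ k * U) *
            (rv h')⁻¹ * (rv h * (rv h)⁻¹) - PowerSeries.derivative F (rv h) * (rv h)⁻¹ *
            (rv h' * (rv h')⁻¹) := by rw [h1, h2, mul_one, mul_one]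
        _ = _ := by ring
    have h7 : (PowerSeries.derivative F (rv h) + PowerSeries.X ^ k * U) * rv h -
          PowerSeries.derivative F (rv h) * rv h' =
          PowerSeries.X ^ k * (U * rv h - PowerSeries.derivative F (rv h) *
            (PowerSeries.X * G)) := by
      rw [hrv]
      ring
    rw [h6, h7]
    ring
  have hcoef : ∀ j < k, PowerSeries.coeff j (lg h') = PowerSeries.coeff j (lg h) := by
    intro j hj
    have h1 : lg h' = lg h + (lg h' - lg h) := by ring
    rw [h1, map_add, hd2, PowerSeries.coeff_X_pow_mul', if_neg (by omega), add_zero]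
  unfold T
  rw [hd, ← hndef, ← hkdef, sum_congr rfl fun j hj => by rw [hcoef j (mem_range.1 hj)]]

end Congr

section Trace

lemma msum_swap {α β M : Type*} [AddCommMonoid M] (m : Multiset α) (B : Finset β)
    (f : β → α → M) : (m.map fun z => ∑ b ∈ B, f b z).sum = ∑ b ∈ B, (m.map fun z => f b z).sum := by
  induction m using Multiset.induction_on with
  | empty => simp
  | cons a s ih => simp only [Multiset.map_cons, Multiset.sum_cons, ih, sum_add_distrib]

variable {F E : Type*} [Field F] [Field E] [Algebra F E] [FiniteDimensional F E]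
  [Algebra.IsSeparable F E]

/-- the value of the rational function -/
noncomputable def ev {F : Type*} [Field F] (E : Type*) [Field E] [Algebra F E] (g : F[X])
    (B : Finset F) (r : F → F) (x : E) : E :=
  aeval x g + ∑ b ∈ B, algebraMap F E (r b) * (x - algebraMap F E b)⁻¹

/-- the sum of the values at the roots of `h` -/
noncomputable def TR {F : Type*} [Field F] (g : F[X]) (B : Finset F) (r : F → F) (h : F[X]) : F :=
  T g h - ∑ b ∈ B, r b * (h.derivative.eval b / h.eval b)

theorem trace_genR (x : E) (g : F[X]) (B : Finset F) (r : F → F)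
    (hx : ∀ b ∈ B, x ≠ algebraMap F E b) :
    Algebra.trace F F⟮x⟯ (ev F⟮x⟯ g B r (AdjoinSimple.gen F x)) = TR g B r (minpoly F x) := by
  classical
  let Ω := AlgebraicClosure F
  have hxi : IsIntegral F x := Algebra.IsIntegral.isIntegral x
  have : Algebra.IsSeparable F F⟮x⟯ := Algebra.isSeparable_tower_bot_of_isSeparable F F⟮x⟯ E
  set P := minpoly F x with hP
  have hmon : P.Monic := minpoly.monic hxi
  have hsplit : (P.map (algebraMap F Ω)).Splits := IsAlgClosed.splits _
  apply (algebraMap F Ω).injective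
  have h1 : ∀ σ : F⟮x⟯ →ₐ[F] Ω, σ (ev F⟮x⟯ g B r (AdjoinSimple.gen F x)) =
      ev Ω g B r (σ (AdjoinSimple.gen F x)) := by
    intro σ
    unfold ev
    rw [map_add, map_sum, aeval_algHom_apply]
    congr 1
    refine sum_congr rfl fun b _ => ?_
    rw [map_mul, map_inv₀, map_sub, AlgHom.commutes, AlgHom.commutes]
  rw [trace_eq_sum_embeddings (E := Ω)]
  simp_rw [h1]
  rw [sum_emb x (fun z => ev Ω g B r z)]
  unfold ev TR
  rw [Multiset.sum_map_add, map_sub, T_aroots g hmon, ← hP, sub_eq_add_neg]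
  congr 1
  rw [map_sum, ← sum_neg_distrib]
  have h2 : ((P.aroots Ω).map fun z => ∑ b ∈ B, algebraMap F Ω (r b) *
      (z - algebraMap F Ω b)⁻¹).sum =
      ∑ b ∈ B, ((P.aroots Ω).map fun z => algebraMap F Ω (r b) * (z - algebraMap F Ω b)⁻¹).sum := by
    exact msum_swap _ B fun b z => algebraMap F Ω (r b) * (z - algebraMap F Ω b)⁻¹
  rw [h2]
  refine sum_congr rfl fun b hb => ?_
  rw [Multiset.sum_map_mul_left, map_mul, ← mul_neg]
  congr 1
  have hP0 : P.eval b ≠ 0 := by
    intro h
    have h3 : P = X - C b := by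
      have h4 : (X - C b) ∣ P := dvd_iff_isRoot.2 h
      exact (eq_of_monic_of_associated (monic_X_sub_C b) hmon
        ((irreducible_X_sub_C b).associated_of_dvd (minpoly.irreducible hxi) h4)).symm
    have h5 : aeval x P = 0 := minpoly.aeval F x
    rw [h3] at h5
    apply hx b hb
    have h6 : x - algebraMap F E b = 0 := by simpa using h5
    exact sub_eq_zero.1 h6
  have h0 : (P.map (algebraMap F Ω)).eval (algebraMap F Ω b) = algebraMap F Ω (P.eval b) := by
    rw [eval_map_algebraMap, aeval_algebraMap_apply_eq_algebraMap_eval]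
  have h0' : (P.map (algebraMap F Ω)).eval (algebraMap F Ω b) ≠ 0 := by
    rw [h0]
    exact (_root_.map_ne_zero _).2 hP0
  have h2 := hsplit.eval_derivative_div_eval_of_ne_zero h0'
  have h3 : (P.map (algebraMap F Ω)).derivative.eval (algebraMap F Ω b) =
      algebraMap F Ω (P.derivative.eval b) := by
    rw [derivative_map, eval_map_algebraMap, aeval_algebraMap_apply_eq_algebraMap_eval]
  rw [h0, h3, ← map_div₀] at h2
  rw [h2]
  change _ = - ((P.aroots Ω).map fun z => 1 / (algebraMap F Ω b - z)).sum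
  rw [← Multiset.sum_map_neg', Multiset.map_map]
  congr 1
  apply Multiset.map_congr rfl
  intro z _
  rw [Function.comp, one_div, ← neg_sub z (algebraMap F Ω b), inv_neg, neg_neg]

theorem trace_R (x : E) (g : F[X]) (B : Finset F) (r : F → F)
    (hx : ∀ b ∈ B, x ≠ algebraMap F E b) :
    Algebra.trace F E (ev E g B r x) =
      (Module.finrank F E / (minpoly F x).natDegree) • TR g B r (minpoly F x) := by
  have h1 : ev E g B r x = algebraMap F⟮x⟯ E (ev F⟮x⟯ g B r (AdjoinSimple.gen F x)) := by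
    unfold ev
    rw [map_add, map_sum]
    congr 1
    rw [← aeval_algebraMap_apply, AdjoinSimple.algebraMap_gen]
  rw [h1, ← Algebra.trace_trace (S := F⟮x⟯), Algebra.trace_algebraMap, map_nsmul,
    trace_genR x g B r hx, (finrank_div x).1]

end Trace

section Lam

variable {F : Type*} [Field F] [Fintype F] [DecidableEq F]

open Classical in
/-- the multiplicative function on monic polynomials attached to the sum -/
noncomputable def lamR (ψ : AddChar F ℂ) (g : F[X]) (B : Finset F) (r : F → F) (h : F[X]) : ℂ :=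
  if ∃ b ∈ B, h.eval b = 0 then 0 else ψ (TR g B r h)

theorem lamR_mult (ψ : AddChar F ℂ) (g : F[X]) (B : Finset F) (r : F → F) :
    Mult (lamR ψ g B r) := by
  constructor
  · unfold lamR TR
    rw [if_neg (by simp), T_one]
    simp
  · intro u h hu hh
    unfold lamR
    by_cases h1 : ∃ b ∈ B, u.eval b = 0
    · obtain ⟨b, hb, hb0⟩ := h1
      rw [if_pos ⟨b, hb, by rw [eval_mul, hb0, zero_mul]⟩, if_pos ⟨b, hb, hb0⟩, zero_mul]
    by_cases h2 : ∃ b ∈ B, h.eval b = 0
    · obtain ⟨b, hb, hb0⟩ := h2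
      rw [if_pos ⟨b, hb, by rw [eval_mul, hb0, mul_zero]⟩, if_pos (⟨b, hb, hb0⟩ :
        ∃ b ∈ B, h.eval b = 0), mul_zero]
    have h3 : ¬ ∃ b ∈ B, (u * h).eval b = 0 := by
      rintro ⟨b, hb, hb0⟩
      rw [eval_mul] at hb0
      rcases mul_eq_zero.1 hb0 with h0 | h0
      · exact h1 ⟨b, hb, h0⟩
      · exact h2 ⟨b, hb, h0⟩
    rw [if_neg h3, if_neg h1, if_neg h2, ← AddChar.map_add_eq_mul]
    congr 1
    unfold TR
    rw [T_mul g hu hh]
    have h4 : ∑ b ∈ B, r b * ((u * h).derivative.eval b / (u * h).eval b) =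
        ∑ b ∈ B, r b * (u.derivative.eval b / u.eval b) +
        ∑ b ∈ B, r b * (h.derivative.eval b / h.eval b) := by
      rw [← sum_add_distrib]
      refine sum_congr rfl fun b hb => ?_
      have e1 : u.eval b ≠ 0 := fun h0 => h1 ⟨b, hb, h0⟩
      have e2 : h.eval b ≠ 0 := fun h0 => h2 ⟨b, hb, h0⟩
      rw [derivative_mul, eval_add, eval_mul, eval_mul, eval_mul]
      field_simp
    rw [h4]
    ring

open Classical in
theorem TR_eq_sum {E : Type*} [Field E] [Fintype E] [DecidableEq E] [Algebra F E]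
    (ψ : AddChar F ℂ) (g : F[X]) (B : Finset F) (r : F → F) :
    TG (lamR ψ g B r) (Module.finrank F E) = ∑ x : E,
      if ∃ b ∈ B, x = algebraMap F E b then 0 else ψ (Algebra.trace F E (ev E g B r x)) := by
  classical
  set m := Module.finrank F E with hm
  have hm0 : 0 < m := Module.finrank_pos
  unfold TG
  have h1 : ∀ x ∈ (univ : Finset E), minpoly F x ∈ (Irr F m).filter (fun P => P.natDegree ∣ m) := by
    intro x _
    have hx : IsIntegral F x := Algebra.IsIntegral.isIntegral x
    rw [mem_filter, mem_Irr]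
    refine ⟨⟨minpoly.monic hx, minpoly.irreducible hx, Nat.le_of_dvd hm0 (finrank_div x).2⟩,
      (finrank_div x).2⟩
  rw [← sum_fiberwise_of_maps_to h1]
  apply sum_congr rfl
  intro P hP
  rw [mem_filter, mem_Irr] at hP
  obtain ⟨⟨hmon, hirr, _⟩, hdvd⟩ := hP
  have h2 : ∀ x ∈ univ.filter (fun x : E => minpoly F x = P),
      (if ∃ b ∈ B, x = algebraMap F E b then (0 : ℂ) else
        ψ (Algebra.trace F E (ev E g B r x))) = lamR ψ g B r P ^ (m / P.natDegree) := by
    intro x hx
    rw [mem_filter] at hx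
    have hxi : IsIntegral F x := Algebra.IsIntegral.isIntegral x
    unfold lamR
    by_cases h0 : ∃ b ∈ B, x = algebraMap F E b
    · obtain ⟨b, hb, hxb⟩ := h0
      have hPb : P.eval b = 0 := by
        have h4 : aeval x P = 0 := by rw [← hx.2]; exact minpoly.aeval F x
        rw [hxb, aeval_algebraMap_apply_eq_algebraMap_eval] at h4
        exact (map_eq_zero _).1 h4
      rw [if_pos ⟨b, hb, hxb⟩, if_pos ⟨b, hb, hPb⟩, zero_pow]
      have : 0 < (minpoly F x).natDegree := minpoly.natDegree_pos hxi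
      rw [hx.2] at this
      exact (Nat.div_pos (Nat.le_of_dvd hm0 hdvd) this).ne'
    · have h3 : ¬ ∃ b ∈ B, P.eval b = 0 := by
        rintro ⟨b, hb, hb0⟩
        apply h0
        refine ⟨b, hb, ?_⟩
        have h4 : P = X - C b := by
          have h4 : (X - C b) ∣ P := dvd_iff_isRoot.2 hb0
          exact (eq_of_monic_of_associated (monic_X_sub_C b) hmon
            ((irreducible_X_sub_C b).associated_of_dvd hirr h4)).symm
        have h5 : aeval x P = 0 := by rw [← hx.2]; exact minpoly.aeval F x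
        rw [h4] at h5
        have h6 : x - algebraMap F E b = 0 := by simpa using h5
        exact sub_eq_zero.1 h6
      rw [if_neg h0, if_neg h3, trace_R x g B r (fun b hb h => h0 ⟨b, hb, h⟩),
        AddChar.map_nsmul_eq_pow, hx.2]
  rw [sum_congr rfl h2, sum_const, nsmul_eq_mul]
  congr 2
  have h3 : univ.filter (fun x : E => minpoly F x = P) = (P.rootSet E).toFinset := by
    ext x
    rw [mem_filter, Set.mem_toFinset, mem_rootSet]
    constructor
    · rintro ⟨_, rfl⟩
      exact ⟨hmon.ne_zero, minpoly.aeval F x⟩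
    · rintro ⟨_, h⟩
      exact ⟨mem_univ _, (minpoly.eq_of_irreducible_of_monic hirr h hmon).symm⟩
  have hsplit : (P.map (algebraMap F E)).Splits := by
    have h4 : P ∣ X ^ (Nat.card F) ^ m - X :=
      (hirr.natDegree_dvd_iff_dvd_X_pow_card_pow_sub_X).1 hdvd
    have h5 : (P.map (algebraMap F E)) ∣ (X ^ (Nat.card F) ^ m - X : E[X]) := by
      have := Polynomial.map_dvd (algebraMap F E) h4
      simpa using this
    have hcard : (Nat.card F) ^ m = Fintype.card E := by
      rw [Nat.card_eq_fintype_card, Module.card_eq_pow_finrank (K := F) (V := E)]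
    rw [hcard] at h5
    have h6 : (X ^ Fintype.card E - X : E[X]).Splits := by
      rw [splits_iff_card_roots, FiniteField.roots_X_pow_card_sub_X,
        FiniteField.X_pow_card_sub_X_natDegree_eq _ Fintype.one_lt_card]
      rfl
    exact h6.of_dvd (FiniteField.X_pow_card_sub_X_ne_zero _ Fintype.one_lt_card) h5
  rw [h3, Set.toFinset_card, card_rootSet_eq_natDegree (PerfectField.separable_of_irreducible hirr)
    hsplit]

/-- the polynomial of the shift -/
noncomputable def D0 (B : Finset F) (b₀ : F) : F[X] := (X - C b₀) * ∏ b ∈ B.erase b₀, (X - C b) ^ 2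

lemma D0_natDegree (B : Finset F) {b₀ : F} (hb₀ : b₀ ∈ B) :
    (D0 B b₀).natDegree = 2 * B.card - 1 := by
  have h1 : (∏ b ∈ B.erase b₀, (X - C b) ^ 2 : F[X]).natDegree = 2 * (B.card - 1) := by
    rw [natDegree_prod_of_monic _ _ (fun b _ => (monic_X_sub_C b).pow 2)]
    rw [sum_congr rfl (fun b _ => by
      rw [(monic_X_sub_C b).natDegree_pow, natDegree_X_sub_C, mul_one] :
        ∀ b ∈ B.erase b₀, ((X - C b) ^ 2 : F[X]).natDegree = 2)]
    rw [sum_const, card_erase_of_mem hb₀, smul_eq_mul, mul_comm]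
  unfold D0
  rw [(monic_X_sub_C b₀).natDegree_mul (monic_prod_of_monic _ _ fun b _ =>
    (monic_X_sub_C b).pow 2), h1, natDegree_X_sub_C]
  have : 0 < B.card := card_pos.2 ⟨b₀, hb₀⟩
  omega

lemma D0_eval (B : Finset F) {b₀ : F} (b : F) (hb : b ∈ B) :
    (D0 B b₀).eval b = 0 := by
  unfold D0
  rw [eval_mul]
  by_cases h : b = b₀
  · rw [h]; simp
  · rw [eval_prod, prod_eq_zero (mem_erase.2 ⟨h, hb⟩) (by simp), mul_zero]

lemma D0_deriv (B : Finset F) {b₀ : F} (b : F) (hb : b ∈ B) (h : b ≠ b₀) :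
    (D0 B b₀).derivative.eval b = 0 := by
  have h1 : (X - C b) ^ 2 ∣ D0 B b₀ := by
    unfold D0
    exact (dvd_prod_of_mem (fun b => (X - C b) ^ 2 : F → F[X]) (mem_erase.2 ⟨h, hb⟩)).mul_left _
  obtain ⟨q, hq⟩ := h1
  rw [hq, derivative_mul, derivative_pow]
  simp

lemma D0_deriv₀ (B : Finset F) (b₀ : F) : (D0 B b₀).derivative.eval b₀ ≠ 0 := by
  have h1 : (D0 B b₀).derivative.eval b₀ = (∏ b ∈ B.erase b₀, (X - C b) ^ 2 : F[X]).eval b₀ := by
    unfold D0
    rw [derivative_mul]
    simp
  rw [h1, eval_prod, prod_ne_zero_iff]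
  intro b hb
  rw [mem_erase] at hb
  rw [eval_pow, eval_sub, eval_X, eval_C]
  exact pow_ne_zero _ (sub_ne_zero.2 hb.1.symm)

/-- vanishing in high degree -/
theorem AR_eq_zero {ψ : AddChar F ℂ} (hψ : ψ.IsPrimitive) (g : F[X]) (B : Finset F) (r : F → F)
    {b₀ : F} (hb₀ : b₀ ∈ B) (hr : r b₀ ≠ 0) (n : ℕ) (hn : 2 * B.card + g.natDegree ≤ n) :
    AG (lamR ψ g B r) n = 0 := by
  classical
  have hB : 0 < B.card := card_pos.2 ⟨b₀, hb₀⟩
  have hDn : (D0 B b₀).natDegree = 2 * B.card - 1 := D0_natDegree B hb₀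
  have hCD : ∀ s : F, (C s * D0 B b₀).natDegree ≤ 2 * B.card - 1 := fun s =>
    (natDegree_C_mul_le _ _).trans hDn.le
  have hdeg : ∀ (s : F) (h : F[X]), h ∈ Mon F n → (C s * D0 B b₀).degree < h.degree := by
    intro s h hh
    rw [mem_Mon] at hh
    rw [degree_eq_natDegree hh.1.ne_zero, hh.2]
    refine (degree_le_natDegree).trans_lt ?_
    have := hCD s
    exact_mod_cast (by omega : (C s * D0 B b₀).natDegree < n)
  have key : ∀ (s : F) (h : F[X]), h ∈ Mon F n → h + C s * D0 B b₀ ∈ Mon F n := by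
    intro s h hh
    have h1 := hdeg s h hh
    rw [mem_Mon] at hh ⊢
    exact ⟨hh.1.add_of_left h1, by rw [natDegree_add_eq_left_of_degree_lt h1, hh.2]⟩
  have hperm : ∀ s : F, ∑ h ∈ Mon F n, lamR ψ g B r h =
      ∑ h ∈ Mon F n, lamR ψ g B r (h + C s * D0 B b₀) := by
    intro s
    symm
    refine sum_bij' (fun h _ => h + C s * D0 B b₀) (fun h _ => h + C (-s) * D0 B b₀)
      (fun h hh => key s h hh) (fun h hh => key (-s) h hh) ?_ ?_ ?_
    · intro h _
      simp
    · intro h _
      simp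
    · intro h _
      rfl
  set e₀ := (D0 B b₀).derivative.eval b₀ with he₀
  have he₀' : e₀ ≠ 0 := D0_deriv₀ B b₀
  have hval : ∀ (s : F) (h : F[X]), h ∈ Mon F n → lamR ψ g B r (h + C s * D0 B b₀) =
      lamR ψ g B r h * ψ (s * (-(r b₀ * e₀ * (h.eval b₀)⁻¹))) := by
    intro s h hh
    have hmem := key s h hh
    rw [mem_Mon] at hh hmem
    have e1 : ∀ b ∈ B, (h + C s * D0 B b₀).eval b = h.eval b := by
      intro b hb
      rw [eval_add, eval_mul, D0_eval B b hb, mul_zero, add_zero]
    have e2 : ∀ b ∈ B, (h + C s * D0 B b₀).derivative.eval b =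
        h.derivative.eval b + if b = b₀ then s * e₀ else 0 := by
      intro b hb
      rw [derivative_add, derivative_C_mul, eval_add, eval_mul, eval_C]
      split_ifs with h1
      · rw [h1]
      · rw [D0_deriv B b hb h1, mul_zero]
    unfold lamR
    by_cases h1 : ∃ b ∈ B, h.eval b = 0
    · obtain ⟨b, hb, hb0⟩ := h1
      rw [if_pos ⟨b, hb, by rw [e1 b hb, hb0]⟩, if_pos ⟨b, hb, hb0⟩, zero_mul]
    · have h2 : ¬ ∃ b ∈ B, (h + C s * D0 B b₀).eval b = 0 := by
        rintro ⟨b, hb, hb0⟩
        exact h1 ⟨b, hb, by rw [← e1 b hb, hb0]⟩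
      rw [if_neg h1, if_neg h2, ← AddChar.map_add_eq_mul]
      congr 1
      unfold TR
      have e3 : T g (h + C s * D0 B b₀) = T g h := by
        refine T_congr g hh.1 hmem.1 (by rw [hmem.2, hh.2]) ?_
        rw [add_sub_cancel_left, hh.2]
        have := hCD s
        omega
      have e4 : ∑ b ∈ B, r b * ((h + C s * D0 B b₀).derivative.eval b /
          (h + C s * D0 B b₀).eval b) =
          ∑ b ∈ B, (r b * (h.derivative.eval b / h.eval b) +
            if b = b₀ then r b₀ * (s * e₀) * (h.eval b₀)⁻¹ else 0) := by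
        refine sum_congr rfl fun b hb => ?_
        rw [e1 b hb, e2 b hb]
        split_ifs with h3
        · rw [h3]
          ring
        · ring
      rw [e3, e4, sum_add_distrib, sum_ite_eq' B b₀, if_pos hb₀]
      ring
  have h1 : (Fintype.card F : ℂ) * AG (lamR ψ g B r) n =
      ∑ s : F, ∑ h ∈ Mon F n, lamR ψ g B r (h + C s * D0 B b₀) := by
    unfold AG
    rw [← card_univ, ← nsmul_eq_mul, ← sum_const]
    exact sum_congr rfl fun s _ => hperm s
  have h2 : ∑ s : F, ∑ h ∈ Mon F n, lamR ψ g B r (h + C s * D0 B b₀) = 0 := by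
    rw [sum_comm]
    apply sum_eq_zero
    intro h hh
    rw [sum_congr rfl fun s _ => hval s h hh, ← mul_sum]
    by_cases h0 : h.eval b₀ = 0
    · have h3 : lamR ψ g B r h = 0 := by
        unfold lamR
        rw [if_pos ⟨b₀, hb₀, h0⟩]
      rw [h3, zero_mul]
    · rw [AddChar.sum_mulShift _ hψ, if_neg, Nat.cast_zero, mul_zero]
      exact neg_ne_zero.2 (mul_ne_zero (mul_ne_zero hr he₀') (inv_ne_zero h0))
  rw [h2] at h1
  rcases mul_eq_zero.1 h1 with h | h
  · exfalso
    exact Fintype.card_ne_zero (α := F) (by exact_mod_cast h)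
  · exact h

/-- the `L`-polynomial -/
noncomputable def LR (ψ : AddChar F ℂ) (g : F[X]) (B : Finset F) (r : F → F) : ℂ[X] :=
  ∑ n ∈ range (2 * B.card + g.natDegree), C (AG (lamR ψ g B r) n) * X ^ n

theorem LR_coeff {ψ : AddChar F ℂ} (hψ : ψ.IsPrimitive) (g : F[X]) (B : Finset F) (r : F → F)
    {b₀ : F} (hb₀ : b₀ ∈ B) (hr : r b₀ ≠ 0) (n : ℕ) :
    (LR ψ g B r).coeff n = AG (lamR ψ g B r) n := by
  rw [LR, finsetSum_coeff]
  simp_rw [coeff_C_mul_X_pow]
  by_cases hn : n < 2 * B.card + g.natDegree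
  · rw [sum_eq_single n]
    · simp
    · intro m _ hm
      rw [if_neg (Ne.symm hm)]
    · intro h
      exact absurd (mem_range.2 hn) h
  · rw [AR_eq_zero hψ g B r hb₀ hr n (by omega)]
    apply sum_eq_zero
    intro m hm
    rw [mem_range] at hm
    rw [if_neg (by omega)]

theorem LR_zero {ψ : AddChar F ℂ} (hψ : ψ.IsPrimitive) (g : F[X]) (B : Finset F) (r : F → F)
    {b₀ : F} (hb₀ : b₀ ∈ B) (hr : r b₀ ≠ 0) : (LR ψ g B r).coeff 0 = 1 := by
  rw [LR_coeff hψ g B r hb₀ hr, AG_zero (lamR_mult ψ g B r)]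

theorem LR_natDegree {ψ : AddChar F ℂ} (hψ : ψ.IsPrimitive) (g : F[X]) (B : Finset F) (r : F → F)
    {b₀ : F} (hb₀ : b₀ ∈ B) (hr : r b₀ ≠ 0) :
    (LR ψ g B r).natDegree ≤ 2 * B.card + g.natDegree - 1 := by
  rw [natDegree_le_iff_coeff_eq_zero]
  intro n hn
  rw [LR_coeff hψ g B r hb₀ hr, AR_eq_zero hψ g B r hb₀ hr n (by omega)]

theorem LR_HID {ψ : AddChar F ℂ} (hψ : ψ.IsPrimitive) (g : F[X]) (B : Finset F) (r : F → F)
    {b₀ : F} (hb₀ : b₀ ∈ B) (hr : r b₀ ≠ 0) : HID (LR ψ g B r) (TG (lamR ψ g B r)) := by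
  intro n
  simp_rw [LR_coeff hψ g B r hb₀ hr]
  exact n_mul_AG (lamR_mult ψ g B r) n

end Lam

end Pool.Agent.J4.H39.WR
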