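import Pool.Agent.Y951.WP.Main
import Pool.Agent.J4.H39.WR.Lam

/-!
# Weil's bound for additive character sums of rational functions with simple rational poles
-/

set_option autoImplicit false
set_option linter.all false

open Polynomial Finset
open Pool.Agent.H341R2.Sharp hiding T
open Pool.Agent.H498R2.Kl
open Pool.Agent.Y807.WB
open Pool.Agent.Y951.WP hiding count_bound count_two_sided sum_TG_bound weil_le

namespace Pool.Agent.J4.H39.WR

section Rat

theorem no_ratR {k : Type} [Field k] (p : ℕ) [Fact p.Prime] (num den den' : k[X]) (a : k)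
    (hden : den = (X - C a) * den') (hd' : den'.eval a ≠ 0) (hn : num.eval a ≠ 0)
    (y : RatFunc k) (hy : cH k (RatFunc k) den * (y ^ p - y) = cH k (RatFunc k) num) : False := by
  have hpp : p.Prime := Fact.out
  have h1 : ∀ g : k[X], cH k (RatFunc k) g = algebraMap k[X] (RatFunc k) g := fun g => rfl
  rw [h1, h1] at hy
  set u := y.num with hu
  set v := y.denom with hv
  have hcop : IsCoprime u v := RatFunc.isCoprime_num_denom y
  have hv0 : v ≠ 0 := RatFunc.denom_ne_zero y
  have hV0 : algebraMap k[X] (RatFunc k) v ≠ 0 := by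
    rw [Ne, map_eq_zero_iff _ (IsFractionRing.injective k[X] (RatFunc k))]
    exact hv0
  have hyuv : y * algebraMap k[X] (RatFunc k) v = algebraMap k[X] (RatFunc k) u := by
    have h2 := RatFunc.num_div_denom y
    rw [← hu, ← hv] at h2
    rw [← h2]
    field_simp
  have hpow : (p - 1) + 1 = p := Nat.sub_add_cancel hpp.one_le
  have heq : den * (u ^ p - u * v ^ (p - 1)) = num * v ^ p := by
    apply IsFractionRing.injective k[X] (RatFunc k)
    rw [map_mul, map_mul, map_sub, map_mul, map_pow, map_pow, map_pow, ← hyuv, ← hy]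
    set V := algebraMap k[X] (RatFunc k) v with hV
    have h3 : V ^ p = V ^ (p - 1) * V := by rw [← pow_succ, hpow]
    rw [mul_pow, h3]
    ring
  have e1 := congrArg (eval a) heq
  rw [hden, eval_mul, eval_mul, eval_mul, eval_sub, eval_X, eval_C, sub_self, zero_mul, zero_mul,
    eval_pow] at e1
  have hva : v.eval a = 0 := by
    rcases mul_eq_zero.1 e1.symm with h | h
    · exact absurd h hn
    · exact pow_eq_zero_iff hpp.ne_zero |>.1 h
  obtain ⟨w, hw⟩ : (X - C a) ∣ v := dvd_iff_isRoot.2 hva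
  have hp2 : 2 ≤ p := hpp.two_le
  have heq2 : den' * (u ^ p - u * v ^ (p - 1)) = num * ((X - C a) ^ (p - 1) * w ^ p) := by
    have h4 : (X - C a) ≠ (0 : k[X]) := X_sub_C_ne_zero a
    apply mul_left_cancel₀ h4
    calc (X - C a) * (den' * (u ^ p - u * v ^ (p - 1))) = den * (u ^ p - u * v ^ (p - 1)) := by
          rw [hden]; ring
      _ = num * v ^ p := heq
      _ = num * ((X - C a) ^ p * w ^ p) := by rw [hw, mul_pow]
      _ = num * (((X - C a) ^ (p - 1) * (X - C a)) * w ^ p) := by rw [← pow_succ, hpow]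
      _ = _ := by ring
  have e2 := congrArg (eval a) heq2
  have hp1 : p - 1 ≠ 0 := by omega
  rw [eval_mul, eval_sub, eval_mul, eval_pow, eval_pow, hva, zero_pow hp1, mul_zero, sub_zero,
    eval_mul, eval_mul, eval_pow, eval_sub, eval_X, eval_C, sub_self, zero_pow hp1, zero_mul,
    mul_zero] at e2
  have hua : u.eval a = 0 := by
    rcases mul_eq_zero.1 e2 with h | h
    · exact absurd h hd'
    · exact pow_eq_zero_iff hpp.ne_zero |>.1 h
  obtain ⟨s, t, hst⟩ := hcop
  have e3 := congrArg (eval a) hst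
  rw [eval_add, eval_mul, eval_mul, hua, hva, mul_zero, mul_zero, add_zero, eval_one] at e3
  exact zero_ne_one e3

variable {F : Type*} [Field F] [DecidableEq F]

/-- the denominator -/
noncomputable def dn (B : Finset F) : F[X] := ∏ b ∈ B, (X - C b)

/-- the numerator -/
noncomputable def nm (g : F[X]) (B : Finset F) (r : F → F) : F[X] :=
  g * dn B + ∑ b ∈ B, C (r b) * ∏ c ∈ B.erase b, (X - C c)

lemma dn_ne (B : Finset F) : dn B ≠ 0 := prod_ne_zero_iff.2 fun b _ => X_sub_C_ne_zero b

lemma dn_fac (B : Finset F) {b : F} (hb : b ∈ B) :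
    dn B = (X - C b) * ∏ c ∈ B.erase b, (X - C c) := by
  unfold dn
  rw [mul_prod_erase B (fun b => (X - C b : F[X])) hb]

lemma er_eval (B : Finset F) (b : F) : (∏ c ∈ B.erase b, (X - C c) : F[X]).eval b ≠ 0 := by
  rw [eval_prod, prod_ne_zero_iff]
  intro c hc
  rw [mem_erase] at hc
  rw [eval_sub, eval_X, eval_C]
  exact sub_ne_zero.2 hc.1.symm

lemma nm_eval (g : F[X]) (B : Finset F) (r : F → F) {b : F} (hb : b ∈ B) (hr : r b ≠ 0) :
    (nm g B r).eval b ≠ 0 := by
  have h1 : (nm g B r).eval b = r b * (∏ c ∈ B.erase b, (X - C c) : F[X]).eval b := by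
    unfold nm
    rw [eval_add, eval_mul, dn_fac B hb, eval_mul, eval_sub, eval_X, eval_C, sub_self, zero_mul,
      mul_zero, zero_add, eval_finsetSum, sum_eq_single b]
    · rw [eval_mul, eval_C]
    · intro c _ hcb
      rw [eval_mul, eval_prod, prod_eq_zero (mem_erase.2 ⟨hcb.symm, hb⟩) (by simp), mul_zero]
    · intro h
      exact absurd hb h
  rw [h1]
  exact mul_ne_zero hr (er_eval B b)

lemma ev_div {K : Type*} [Field K] [Algebra F K] (g : F[X]) (B : Finset F) (r : F → F) (z : K)
    (hz : ∀ b ∈ B, z ≠ algebraMap F K b) :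
    aeval z (dn B) ≠ 0 ∧ aeval z (nm g B r) / aeval z (dn B) = ev K g B r z := by
  have h1 : aeval z (dn B) = ∏ b ∈ B, (z - algebraMap F K b) := by
    unfold dn
    rw [map_prod]
    refine prod_congr rfl fun b _ => ?_
    rw [map_sub, aeval_X, aeval_C]
  have h0 : aeval z (dn B) ≠ 0 := by
    rw [h1, prod_ne_zero_iff]
    intro b hb
    exact sub_ne_zero.2 (hz b hb)
  refine ⟨h0, ?_⟩
  rw [div_eq_iff h0]
  unfold nm ev
  rw [map_add, map_mul, map_sum, add_mul, sum_mul]
  congr 1
  refine sum_congr rfl fun b hb => ?_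
  rw [map_mul, aeval_C, map_prod, mul_assoc]
  congr 1
  have h2 : z - algebraMap F K b ≠ 0 := sub_ne_zero.2 (hz b hb)
  rw [h1, ← mul_prod_erase B (fun b => (z - algebraMap F K b)) hb, inv_mul_cancel_left₀ h2]
  refine prod_congr rfl fun c _ => ?_
  rw [map_sub, aeval_X, aeval_C]

end Rat

section Count
variable (p : ℕ) [Fact p.Prime]

open Classical in
/-- the points outside the poles -/
noncomputable def Gd {F : Type} [Field F] (E : Type) [Field E] [Fintype E] [Algebra F E]
    (B : Finset F) : Finset E :=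
  univ.filter (fun x : E => ∀ b ∈ B, x ≠ algebraMap F E b)

open Classical in
theorem mem_Gd {F : Type} [Field F] {E : Type} [Field E] [Fintype E] [Algebra F E]
    {B : Finset F} {x : E} : x ∈ Gd E B ↔ ∀ b ∈ B, x ≠ algebraMap F E b := by
  unfold Gd
  rw [mem_filter]
  exact and_iff_right (mem_univ _)

open Classical in
/-- the points with a given trace -/
noncomputable def NR {F : Type} [Field F] (E : Type) [Field E] [Fintype E] [Algebra F E]
    (g : F[X]) (B : Finset F) (r : F → F) (t : F) : Finset E :=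
  (Gd E B).filter (fun x : E => Algebra.trace F E (ev E g B r x) = t)

open Classical in
theorem mem_NR {F : Type} [Field F] {E : Type} [Field E] [Fintype E] [Algebra F E]
    {g : F[X]} {B : Finset F} {r : F → F} {t : F} {x : E} : x ∈ NR E g B r t ↔
      (∀ b ∈ B, x ≠ algebraMap F E b) ∧ Algebra.trace F E (ev E g B r x) = t := by
  unfold NR
  rw [mem_filter, mem_Gd]

theorem NR_sub {F : Type} [Field F] {E : Type} [Field E] [Fintype E] [Algebra F E]
    (g : F[X]) (B : Finset F) (r : F → F) (t : F) : NR E g B r t ⊆ Gd E B := by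
  intro x hx
  rw [mem_Gd]
  exact (mem_NR.1 hx).1

open Classical in
lemma card_Gd {F : Type} [Field F] (E : Type) [Field E] [Fintype E] [Algebra F E]
    (B : Finset F) : (Gd E B).card + B.card = Fintype.card E := by
  have h1 : (univ : Finset E) \ Gd E B = B.image (algebraMap F E) := by
    ext x
    rw [mem_sdiff, mem_Gd, mem_image]
    constructor
    · rintro ⟨_, h⟩
      push Not at h
      obtain ⟨b, hb, hx⟩ := h
      exact ⟨b, hb, hx.symm⟩
    · rintro ⟨b, hb, hx⟩
      exact ⟨mem_univ _, fun h => h b hb hx.symm⟩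
  have h2 := card_sdiff_add_card_eq_card (subset_univ (Gd E B))
  rw [h1, card_image_of_injective _ (algebraMap F E).injective, card_univ] at h2
  omega

theorem count_bound (g : (ZMod p)[X]) (B : Finset (ZMod p)) (r : ZMod p → ZMod p)
    {b₀ : ZMod p} (hb₀ : b₀ ∈ B) (hr : r b₀ ≠ 0) :
    ∃ C0 N0 : ℕ, ∀ m : ℕ, N0 ≤ m → ∀ (E : Type) [Field E] [Fintype E] [Algebra (ZMod p) E],
      Module.finrank (ZMod p) E = m → ∀ t : ZMod p,
      p * (NR E g B r t).card ≤ p ^ m + C0 * p ^ (m - m / 2) := by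
  classical
  have hpp : p.Prime := Fact.out
  let k := AlgebraicClosure (ZMod p)
  let j : ZMod p →+* k := algebraMap (ZMod p) k
  have hj : Function.Injective j := j.injective
  haveI : CharP k p := charP_of_injective_algebraMap hj p
  have hfix : ∀ f : (ZMod p)[X], ∀ i, (f.map j).coeff i ^ p = (f.map j).coeff i := by
    intro f i
    rw [coeff_map, ← map_pow, ZMod.pow_card]
  have hev : ∀ (f : (ZMod p)[X]) (b : ZMod p), (f.map j).eval (j b) = j (f.eval b) := by
    intro f b
    rw [eval_map, eval₂_at_apply]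
  obtain ⟨C0, N0, hcore⟩ := coreP k p ((nm g B r).map j) ((dn B).map j) (hfix _) (hfix _)
    ((Polynomial.map_ne_zero_iff hj).2 (dn_ne B))
    (no_ratR p ((nm g B r).map j) ((dn B).map j)
      ((∏ c ∈ B.erase b₀, (X - C c) : (ZMod p)[X]).map j) (j b₀)
      (by rw [dn_fac B hb₀, Polynomial.map_mul, Polynomial.map_sub, map_X, map_C])
      (by
        rw [hev]
        exact (_root_.map_ne_zero _).2 (er_eval B b₀))
      (by
        rw [hev]
        exact (_root_.map_ne_zero _).2 (nm_eval g B r hb₀ hr)))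
  refine ⟨C0, N0, fun m hm E _ _ _ hE t => ?_⟩
  haveI : Module.Finite (ZMod p) E := Module.Finite.of_finite
  haveI : Algebra.IsAlgebraic (ZMod p) E := Algebra.IsAlgebraic.of_finite _ _
  let ι : E →ₐ[ZMod p] k := IsAlgClosed.lift
  have hι : Function.Injective ι := ι.toRingHom.injective
  have hcard : Fintype.card E = p ^ m := by
    rw [Module.card_eq_pow_finrank (K := ZMod p) (V := E), ZMod.card, hE]
  have hcomm : ∀ s : ZMod p, ι (algebraMap (ZMod p) E s) = j s := fun s => ι.commutes s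
  have key := hcore m hm (j t) (by rw [← map_pow, ZMod.pow_card]) ((NR E g B r t).image ι) (by
    intro z hz
    rw [mem_image] at hz
    obtain ⟨x, hx, rfl⟩ := hz
    rw [mem_NR] at hx
    obtain ⟨hx1, hx2⟩ := hx
    have hz1 : ∀ b ∈ B, ι x ≠ algebraMap (ZMod p) k b := by
      intro b hb h
      apply hx1 b hb
      apply hι
      rw [h]
      exact (hcomm b).symm
    obtain ⟨hz2, hz3⟩ := ev_div (K := k) g B r (ι x) hz1
    refine ⟨?_, ?_, ?_⟩
    · rw [← map_pow, ← hcard, FiniteField.pow_card]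
    · rw [eval_map_algebraMap]
      exact hz2
    · have h1 : ((nm g B r).map j).eval (ι x) / ((dn B).map j).eval (ι x) =
          ι (ev E g B r x) := by
        rw [eval_map_algebraMap, eval_map_algebraMap, hz3]
        unfold ev
        rw [map_add, map_sum, aeval_algHom_apply]
        congr 1
        refine sum_congr rfl fun b _ => ?_
        rw [map_mul, map_inv₀, map_sub, hcomm, hcomm]
      rw [h1, ← hx2]
      have h2 := FiniteField.algebraMap_trace_eq_sum_pow (ZMod p) E (ev E g B r x)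
      rw [← hcomm, h2, map_sum, hE]
      apply sum_congr rfl
      intro i _
      rw [map_pow, Nat.card_zmod])
  rwa [card_image_of_injective _ hι] at key

end Count

section Sums
variable (p : ℕ) [Fact p.Prime]

theorem sum_TR' (E : Type) [Field E] [Fintype E] [DecidableEq E] [Algebra (ZMod p) E]
    {ψ : AddChar (ZMod p) ℂ} (hψ : ψ.IsPrimitive) (g : (ZMod p)[X]) (B : Finset (ZMod p))
    (r : ZMod p → ZMod p) :
    ∑ s ∈ univ.filter (fun s : ZMod p => s ≠ 0),
      TG (lamR ψ (C s * g) B (fun b => s * r b)) (Module.finrank (ZMod p) E) =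
      (p : ℂ) * (NR E g B r 0).card - ((Gd E B).card : ℂ) := by
  classical
  have h1 : ∀ s : ZMod p, TG (lamR ψ (C s * g) B (fun b => s * r b)) (Module.finrank (ZMod p) E) =
      ∑ x ∈ Gd E B, ψ (s * Algebra.trace (ZMod p) E (ev E g B r x)) := by
    intro s
    rw [TR_eq_sum (E := E)]
    have h2 : ∀ x : E, (if ∃ b ∈ B, x = algebraMap (ZMod p) E b then (0 : ℂ) else
        ψ (Algebra.trace (ZMod p) E (ev E (C s * g) B (fun b => s * r b) x))) =
        if x ∈ Gd E B then ψ (s * Algebra.trace (ZMod p) E (ev E g B r x)) else 0 := by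
      intro x
      by_cases hx : x ∈ Gd E B
      · have hx' := mem_Gd.1 hx
        rw [if_pos hx, if_neg (by
          rintro ⟨b, hb, h⟩
          exact hx' b hb h)]
        congr 1
        have h3 : ev E (C s * g) B (fun b => s * r b) x = s • ev E g B r x := by
          unfold ev
          rw [smul_add, smul_sum, map_mul, aeval_C, ← Algebra.smul_def]
          congr 1
          refine sum_congr rfl fun b _ => ?_
          rw [Algebra.smul_def, map_mul]
          ring
        rw [h3, map_smul, smul_eq_mul]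
      · rw [if_neg hx, if_pos]
        by_contra h
        push Not at h
        exact hx (mem_Gd.2 h)
    rw [sum_congr rfl (fun x _ => h2 x), ← sum_filter]
    refine sum_congr ?_ fun _ _ => rfl
    ext x
    rw [mem_filter]
    exact and_iff_right (mem_univ _)
  have h2 : ∑ s : ZMod p, TG (lamR ψ (C s * g) B (fun b => s * r b)) (Module.finrank (ZMod p) E) =
      (p : ℂ) * (NR E g B r 0).card := by
    simp_rw [h1]
    rw [sum_comm]
    simp_rw [AddChar.sum_mulShift _ hψ]
    have e2 : ((NR E g B r 0).card : ℂ) = ∑ x ∈ Gd E B,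
        if (Algebra.trace (ZMod p) E (ev E g B r x) = 0) then (1 : ℂ) else 0 := by
      rw [← sum_filter, sum_const, nsmul_eq_mul, mul_one]
      congr 2
      ext x
      rw [mem_NR, mem_filter, mem_Gd]
    rw [e2, mul_sum]
    apply sum_congr rfl
    intro x _
    rw [ZMod.card]
    by_cases h' : Algebra.trace (ZMod p) E (ev E g B r x) = 0
    · rw [if_pos h', if_pos h', mul_one]
    · rw [if_neg h', if_neg h', mul_zero, Nat.cast_zero]
  have h3 : TG (lamR ψ (C 0 * g) B (fun b => 0 * r b)) (Module.finrank (ZMod p) E) =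
      ((Gd E B).card : ℂ) := by
    rw [h1 0]
    simp
  have h4 : ∑ s : ZMod p, TG (lamR ψ (C s * g) B (fun b => s * r b)) (Module.finrank (ZMod p) E) =
      ∑ s ∈ univ.filter (fun s : ZMod p => s ≠ 0),
        TG (lamR ψ (C s * g) B (fun b => s * r b)) (Module.finrank (ZMod p) E) +
        TG (lamR ψ (C 0 * g) B (fun b => 0 * r b)) (Module.finrank (ZMod p) E) := by
    rw [← sum_filter_add_sum_filter_not univ (fun s : ZMod p => s ≠ 0)]
    congr 1
    have : (univ.filter fun s : ZMod p => ¬ s ≠ 0) = {0} := by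
      ext s
      simp
    rw [this, sum_singleton]
  rw [h4, h3] at h2
  rw [← h2]
  ring

theorem count_two_sided (g : (ZMod p)[X]) (B : Finset (ZMod p)) (r : ZMod p → ZMod p)
    {b₀ : ZMod p} (hb₀ : b₀ ∈ B) (hr : r b₀ ≠ 0) :
    ∃ C1 : ℝ, 0 ≤ C1 ∧ ∀ m : ℕ, 1 ≤ m → ∀ (E : Type) [Field E] [Fintype E] [DecidableEq E] [Algebra (ZMod p) E],
      Module.finrank (ZMod p) E = m →
      |(p : ℝ) * (NR E g B r 0).card - ((Gd E B).card : ℝ)| ≤ C1 * (Real.sqrt p) ^ m := by
  classical
  have hpp : p.Prime := Fact.out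
  obtain ⟨C0, N0, hcb⟩ := count_bound p g B r hb₀ hr
  have hp1 : (1 : ℝ) ≤ p := by exact_mod_cast hpp.one_le
  have hs1 : 1 ≤ Real.sqrt p := by rwa [Real.one_le_sqrt]
  have hss : Real.sqrt p * Real.sqrt p = p := Real.mul_self_sqrt (by positivity)
  refine ⟨(p : ℝ) * (p : ℝ) ^ N0 + p * C0 * Real.sqrt p + p * B.card, by positivity, ?_⟩
  intro m hm E _ _ _ _ hE
  have hcard : Fintype.card E = p ^ m := by
    rw [Module.card_eq_pow_finrank (K := ZMod p) (V := E), ZMod.card, hE]
  have hGB : ((Gd E B).card : ℝ) + B.card = (p : ℝ) ^ m := by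
    have h1 := card_Gd E B
    rw [hcard] at h1
    exact_mod_cast h1
  have hG0 : (0 : ℝ) ≤ (Gd E B).card := Nat.cast_nonneg _
  have hB0 : (0 : ℝ) ≤ B.card := Nat.cast_nonneg _
  have hNG : ((NR E g B r 0).card : ℝ) ≤ (Gd E B).card := by
    exact_mod_cast card_le_card (NR_sub g B r 0)
  have hsm : 1 ≤ Real.sqrt p ^ m := one_le_pow₀ hs1
  have hBs : (p : ℝ) * B.card ≤ p * B.card * Real.sqrt p ^ m :=
    le_mul_of_one_le_right (by positivity) hsm
  by_cases hmN : N0 ≤ m
  · -- large `m`
    have hb : ∀ t : ZMod p, (p : ℝ) * (NR E g B r t).card ≤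
        (p : ℝ) ^ m + C0 * (p : ℝ) ^ (m - m / 2) := by
      intro t
      exact_mod_cast hcb m hmN E hE t
    have hsum : ∑ t : ZMod p, ((NR E g B r t).card : ℝ) = (Gd E B).card := by
      have h1 : (Gd E B).card = ∑ t : ZMod p, (NR E g B r t).card := by
        rw [card_eq_sum_card_fiberwise (f := fun x => Algebra.trace (ZMod p) E (ev E g B r x))
          (t := univ) (fun _ _ => mem_univ _)]
        refine sum_congr rfl fun t _ => ?_
        congr 1
        ext x
        rw [mem_filter, mem_Gd, mem_NR]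
      exact_mod_cast h1.symm
    have hpw : (p : ℝ) ^ (m - m / 2) ≤ Real.sqrt p * Real.sqrt p ^ m := by
      have h1 : (p : ℝ) ^ (m - m / 2) = Real.sqrt p ^ (2 * (m - m / 2)) := by
        rw [pow_mul, sq, hss]
      rw [h1, ← pow_succ']
      exact pow_le_pow_right₀ hs1 (by omega)
    set Q : ℝ := C0 * (p : ℝ) ^ (m - m / 2) with hQ
    have hQ0 : 0 ≤ Q := by positivity
    have hupper : (p : ℝ) * (NR E g B r 0).card - (Gd E B).card ≤ Q + B.card := by
      have h1 := hb 0
      linarith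
    have hlower : -(((p : ℝ) - 1) * (Q + B.card)) ≤
        (p : ℝ) * (NR E g B r 0).card - (Gd E B).card := by
      have h1 : ∑ t ∈ univ.erase (0 : ZMod p), (p : ℝ) * ((NR E g B r t).card : ℝ) ≤
          ((p : ℝ) - 1) * ((p : ℝ) ^ m + Q) := by
        refine (sum_le_card_nsmul _ _ _ fun t _ => hb t).trans ?_
        rw [card_erase_of_mem (mem_univ _), card_univ, ZMod.card, nsmul_eq_mul,
          Nat.cast_sub hpp.one_le, Nat.cast_one]
      have h2 : (p : ℝ) * (NR E g B r 0).card + ∑ t ∈ univ.erase (0 : ZMod p),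
          (p : ℝ) * ((NR E g B r t).card : ℝ) = p * (Gd E B).card := by
        rw [add_sum_erase univ (fun t => (p : ℝ) * ((NR E g B r t).card : ℝ))
          (mem_univ (0 : ZMod p)), ← mul_sum, hsum]
      nlinarith
    have h6 : |(p : ℝ) * (NR E g B r 0).card - (Gd E B).card| ≤ p * (Q + B.card) := by
      rw [abs_le]
      constructor
      · nlinarith
      · nlinarith
    refine h6.trans ?_
    have h7 : Q ≤ C0 * (Real.sqrt p * Real.sqrt p ^ m) :=
      mul_le_mul_of_nonneg_left hpw (Nat.cast_nonneg _)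
    have h8 : (p : ℝ) * Q ≤ p * (C0 * (Real.sqrt p * Real.sqrt p ^ m)) :=
      mul_le_mul_of_nonneg_left h7 (by linarith)
    have h10 : (0 : ℝ) ≤ (p : ℝ) * (p : ℝ) ^ N0 * Real.sqrt p ^ m := by positivity
    have h11 : (p : ℝ) * (C0 * (Real.sqrt p * Real.sqrt p ^ m)) =
        p * C0 * Real.sqrt p * Real.sqrt p ^ m := by ring
    rw [add_mul, add_mul]
    linarith
  · -- small `m`
    push Not at hmN
    have h1 : |(p : ℝ) * (NR E g B r 0).card - (Gd E B).card| ≤ p * (p : ℝ) ^ m := by
      have h3 : (0 : ℝ) ≤ (NR E g B r 0).card := by positivity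
      have h4 : (0 : ℝ) ≤ (p : ℝ) ^ m := by positivity
      have h5 : ((Gd E B).card : ℝ) ≤ (p : ℝ) ^ m := by linarith
      rw [abs_le]
      constructor
      · nlinarith
      · nlinarith
    have h3 : (p : ℝ) ^ m ≤ (p : ℝ) ^ N0 := pow_le_pow_right₀ hp1 hmN.le
    have h4 : (p : ℝ) * (p : ℝ) ^ m ≤ (p : ℝ) * (p : ℝ) ^ N0 * Real.sqrt p ^ m := by
      have h5 : (0 : ℝ) ≤ (p : ℝ) * (p : ℝ) ^ N0 := by positivity
      calc (p : ℝ) * (p : ℝ) ^ m ≤ p * (p : ℝ) ^ N0 := by nlinarith
        _ ≤ _ := le_mul_of_one_le_right h5 hsm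
    have h6 : (0 : ℝ) ≤ p * C0 * Real.sqrt p * Real.sqrt p ^ m := by positivity
    have h7 : (0 : ℝ) ≤ (p : ℝ) * B.card * Real.sqrt p ^ m := by positivity
    rw [add_mul, add_mul]
    linarith

theorem sum_TG_bound (g : (ZMod p)[X]) (B : Finset (ZMod p)) (r : ZMod p → ZMod p)
    {b₀ : ZMod p} (hb₀ : b₀ ∈ B) (hr : r b₀ ≠ 0)
    {ψ : AddChar (ZMod p) ℂ} (hψ : ψ.IsPrimitive) :
    ∃ C1 : ℝ, 0 ≤ C1 ∧ ∀ m : ℕ, 1 ≤ m →
    ‖∑ s ∈ univ.filter (fun s : ZMod p => s ≠ 0),
      TG (lamR ψ (C s * g) B (fun b => s * r b)) m‖ ≤ C1 * (Real.sqrt p) ^ m := by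
  classical
  obtain ⟨C1, hC1, h⟩ := count_two_sided p g B r hb₀ hr
  refine ⟨C1, hC1, fun m hm => ?_⟩
  obtain ⟨E, _, _, _, hfr⟩ : ∃ (E : Type) (_ : Field E) (_ : Fintype E) (_ : Algebra (ZMod p) E),
      Module.finrank (ZMod p) E = m :=
    ⟨GaloisField p m, inferInstance, Fintype.ofFinite _, inferInstance, GaloisField.finrank p (by omega)⟩
  have h1 := sum_TR' p E hψ g B r
  rw [hfr] at h1
  rw [h1]
  have h2 := h m hm E hfr
  rw [← Real.norm_eq_abs, ← Complex.norm_real] at h2
  push_cast at h2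
  exact h2

open Classical in
/-- **Weil's bound** for rational functions with simple rational poles. -/
theorem weil_le (g : (ZMod p)[X]) (B : Finset (ZMod p)) (r : ZMod p → ZMod p)
    {b₀ : ZMod p} (hb₀ : b₀ ∈ B) (hr : r b₀ ≠ 0)
    {ψ : AddChar (ZMod p) ℂ} (hψ : ψ.IsPrimitive) :
    ‖∑ x : ZMod p, (if x ∈ B then (0 : ℂ) else
      ψ (g.eval x + ∑ b ∈ B, r b * (x - b)⁻¹))‖ ≤
      ((2 * B.card + g.natDegree - 1 : ℕ) : ℝ) * Real.sqrt p := by
  classical
  have hpp : p.Prime := Fact.out
  have hq0 : 0 < Real.sqrt p := Real.sqrt_pos.2 (by exact_mod_cast hpp.pos)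
  set s := univ.filter (fun s : ZMod p => s ≠ 0) with hs
  set A : ℂ[X] := ∏ t ∈ s, LR ψ (C t * g) B (fun b => t * r b) with hA
  have ht : ∀ t ∈ s, t * r b₀ ≠ 0 := by
    intro t ht
    rw [hs, mem_filter] at ht
    exact mul_ne_zero ht.2 hr
  have hid : HID A (fun m => ∑ t ∈ s, TG (lamR ψ (C t * g) B (fun b => t * r b)) m) :=
    HID.prod s _ _ fun t hts => LR_HID hψ _ B (fun b => t * r b) hb₀ (ht t hts)
  have hA0 : A.coeff 0 = 1 := by
    rw [hA, coeff_zero_prod]
    exact prod_eq_one fun t hts => LR_zero hψ _ B (fun b => t * r b) hb₀ (ht t hts)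
  obtain ⟨C1, hC1, hbound⟩ := sum_TG_bound p g B r hb₀ hr hψ
  have hroot : ∀ z : ℂ, (LR ψ g B r).eval z = 0 → 1 ≤ Real.sqrt p * ‖z‖ := by
    intro z hz
    apply root_norm A hA0 (fun m => ∑ t ∈ s, TG (lamR ψ (C t * g) B (fun b => t * r b)) m)
      (Real.sqrt p) C1 hq0 hC1
    · intro m hm
      exact hbound m hm
    · exact hid
    · rw [hA, eval_prod]
      apply prod_eq_zero (i := (1 : ZMod p))
      · rw [hs, mem_filter]
        exact ⟨mem_univ _, one_ne_zero⟩
      · simp only [C_1, one_mul]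
        exact hz
  have h1 := coeff_one_le (LR ψ g B r) (LR_zero hψ g B r hb₀ hr) _ hq0 hroot _
    (LR_natDegree hψ g B r hb₀ hr)
  have h2 : (LR ψ g B r).coeff 1 = ∑ x : ZMod p, (if x ∈ B then (0 : ℂ) else
      ψ (g.eval x + ∑ b ∈ B, r b * (x - b)⁻¹)) := by
    have h3 := LR_HID hψ g B r hb₀ hr 1
    rw [Icc_self, sum_singleton, Nat.sub_self, LR_zero hψ g B r hb₀ hr, one_mul, Nat.cast_one,
      one_mul] at h3
    rw [h3]
    have h4 := TR_eq_sum (F := ZMod p) (E := ZMod p) ψ g B r
    rw [Module.finrank_self] at h4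
    rw [h4]
    apply sum_congr rfl
    intro x _
    by_cases hx : x ∈ B
    · rw [if_pos hx, if_pos ⟨x, hx, rfl⟩]
    · rw [if_neg hx, if_neg (by
        rintro ⟨b, hb, h⟩
        apply hx
        rw [h]
        exact hb)]
      unfold ev
      simp
  rw [h2] at h1
  exact h1

end Sums

end Pool.Agent.J4.H39.WR
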